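import Pool.Agent.Q145.SZ.Stm3

/-!
# Project SZ, job COIN (helper247)
-/

set_option autoImplicit false

namespace Pool.Agent.Q247.SZ.Coin

open Finset
open Pool.Agent.Q145.SZ

/-- number of `s ≤ X` in a class mod `M` -/
lemma cnt_class (X M c : ℕ) (hM : 0 < M) :
    (X : ℝ) / M - 1 ≤ (((Icc 1 X).filter fun s => s ≡ c [MOD M]).card : ℝ) ∧
      (((Icc 1 X).filter fun s => s ≡ c [MOD M]).card : ℝ) ≤ (X : ℝ) / M + 1 := by
  have h1 : (Icc 1 X) = Ioc 0 X := by ext; simp [Nat.succ_le_iff]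
  have h := Nat.Ioc_filter_modEq_card 0 X hM c
  rw [h1]
  have hMr : (0 : ℝ) < M := by exact_mod_cast hM
  set N := ((Ioc 0 X).filter fun s => s ≡ c [MOD M]).card with hN
  set u : ℚ := ((X : ℚ) - c) / M with hu
  set v : ℚ := (((0 : ℕ) : ℚ) - c) / M with hv
  have huv : u - v = (X : ℚ) / M := by
    rw [hu, hv]; push_cast; ring
  have e1 := Int.floor_le u
  have e2 := Int.lt_floor_add_one u
  have e3 := Int.floor_le v
  have e4 := Int.lt_floor_add_one v
  have hXM : (0 : ℚ) ≤ (X : ℚ) / M := by positivity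
  have k1 : (X : ℚ) / M - 1 ≤ (N : ℚ) := by
    have : ((N : ℤ) : ℚ) = ((max (⌊u⌋ - ⌊v⌋) 0 : ℤ) : ℚ) := by exact_mod_cast h
    have h2 : (N : ℚ) = max ((⌊u⌋ : ℚ) - ⌊v⌋) 0 := by
      have h3 : ((N : ℤ) : ℚ) = (N : ℚ) := by norm_cast
      rw [← h3, this]; push_cast; rfl
    rw [h2]
    refine le_trans ?_ (le_max_left _ _)
    linarith
  have k2 : (N : ℚ) ≤ (X : ℚ) / M + 1 := by
    have : ((N : ℤ) : ℚ) = ((max (⌊u⌋ - ⌊v⌋) 0 : ℤ) : ℚ) := by exact_mod_cast h
    have h2 : (N : ℚ) = max ((⌊u⌋ : ℚ) - ⌊v⌋) 0 := by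
      have h3 : ((N : ℤ) : ℚ) = (N : ℚ) := by norm_cast
      rw [← h3, this]; push_cast; rfl
    rw [h2]
    refine max_le ?_ ?_
    · linarith
    · linarith
  constructor
  · have := (Rat.cast_le (K := ℝ)).2 k1
    push_cast at this
    exact this
  · have := (Rat.cast_le (K := ℝ)).2 k2
    push_cast at this
    exact this

/-- CRT class count -/
lemma cnt_crt (X W r : ℕ) (hW : 0 < W) (hr : 0 < r) (hc : W.Coprime r) (n : ℕ) (a : ZMod W) (u : ZMod r) :
    (X : ℝ) / (W * r : ℕ) - 1 ≤ (((Icc 1 X).filter fun s : ℕ => (s : ZMod W) = a ∧ ((n + s : ℕ) : ZMod r) = u).card : ℝ) ∧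
      (((Icc 1 X).filter fun s : ℕ => (s : ZMod W) = a ∧ ((n + s : ℕ) : ZMod r) = u).card : ℝ) ≤ (X : ℝ) / (W * r : ℕ) + 1 := by
  haveI : NeZero W := ⟨hW.ne'⟩
  haveI : NeZero r := ⟨hr.ne'⟩
  obtain ⟨c, hc1, hc2⟩ := Nat.chineseRemainder hc a.val (u - n).val
  have : ((Icc 1 X).filter fun s : ℕ => (s : ZMod W) = a ∧ ((n + s : ℕ) : ZMod r) = u) =
      (Icc 1 X).filter fun s => s ≡ c [MOD (W * r)] := by
    refine filter_congr fun s _ => ?_
    rw [← Nat.modEq_and_modEq_iff_modEq_mul hc]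
    have h1 : ((s : ZMod W) = a) ↔ s ≡ c [MOD W] := by
      rw [← ZMod.natCast_eq_natCast_iff, (ZMod.natCast_eq_natCast_iff _ _ _).2 hc1, ZMod.natCast_zmod_val]
    have h2 : (((n + s : ℕ) : ZMod r) = u) ↔ s ≡ c [MOD r] := by
      rw [← ZMod.natCast_eq_natCast_iff, (ZMod.natCast_eq_natCast_iff _ _ _).2 hc2, ZMod.natCast_zmod_val]
      push_cast
      constructor
      · intro h; rw [← h]; ring
      · intro h; rw [h]; ring
    rw [h1, h2]
  rw [this]
  exact cnt_class X (W * r) c (Nat.mul_pos hW hr)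

/-- the sums over a class -/
lemma sum_class (X W r : ℕ) (hW : 0 < W) (hr : 0 < r) (hc : W.Coprime r) (n : ℕ) (a : ZMod W) [Fintype (ZMod r)]
    (G : ZMod r → ℝ) (hG : ∀ u, 0 ≤ G u) :
    ((X : ℝ) / (W * r : ℕ) - 1) * ∑ u, G u ≤ ∑ s ∈ (Icc 1 X).filter (fun s : ℕ => (s : ZMod W) = a), G ((n + s : ℕ) : ZMod r) ∧
      ∑ s ∈ (Icc 1 X).filter (fun s : ℕ => (s : ZMod W) = a), G ((n + s : ℕ) : ZMod r) ≤ ((X : ℝ) / (W * r : ℕ) + 1) * ∑ u, G u := by
  classical
  have key : ∑ s ∈ (Icc 1 X).filter (fun s : ℕ => (s : ZMod W) = a), G ((n + s : ℕ) : ZMod r) =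
      ∑ u : ZMod r, (((Icc 1 X).filter fun s : ℕ => (s : ZMod W) = a ∧ ((n + s : ℕ) : ZMod r) = u).card : ℝ) * G u := by
    rw [← Finset.sum_fiberwise_of_maps_to (s := (Icc 1 X).filter (fun s : ℕ => (s : ZMod W) = a)) (t := (univ : Finset (ZMod r)))
      (g := fun s : ℕ => ((n + s : ℕ) : ZMod r)) (fun _ _ => mem_univ _)]
    refine sum_congr rfl fun u _ => ?_
    rw [filter_filter, ← nsmul_eq_mul, ← sum_const]
    refine sum_congr rfl fun s hs => ?_
    rw [(mem_filter.1 hs).2.2]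
  rw [key, mul_sum, mul_sum]
  constructor
  · exact sum_le_sum fun u _ => mul_le_mul_of_nonneg_right (cnt_crt X W r hW hr hc n a u).1 (hG u)
  · exact sum_le_sum fun u _ => mul_le_mul_of_nonneg_right (cnt_crt X W r hW hr hc n a u).2 (hG u)

/-- the fibre lemma -/
lemma fiber (X K W : ℕ) [NeZero W] (B : (Fin K → ZMod W) → Prop) [DecidablePred B] (g : ℕ → ℝ) :
    ∑ s ∈ Fintype.piFinset (fun _ : Fin K => Icc 1 X), (if B (fun i => (s i : ZMod W)) then ∏ i, g (s i) else 0) =
      ∑ a : Fin K → ZMod W, if B a then ∏ i, ∑ s ∈ (Icc 1 X).filter (fun s : ℕ => (s : ZMod W) = a i), g s else 0 := by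
  classical
  rw [← Finset.sum_fiberwise_of_maps_to (s := Fintype.piFinset (fun _ : Fin K => Icc 1 X)) (t := (univ : Finset (Fin K → ZMod W)))
      (g := fun s : Fin K → ℕ => fun i => (s i : ZMod W)) (fun _ _ => mem_univ _)]
  refine sum_congr rfl fun a _ => ?_
  have hset : (Fintype.piFinset (fun _ : Fin K => Icc 1 X)).filter (fun s : Fin K → ℕ => (fun i => (s i : ZMod W)) = a) =
      Fintype.piFinset (fun i : Fin K => (Icc 1 X).filter (fun s : ℕ => (s : ZMod W) = a i)) := by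
    ext s
    simp only [mem_filter, Fintype.mem_piFinset]
    constructor
    · rintro ⟨h1, h2⟩ i
      exact ⟨h1 i, congrFun h2 i⟩
    · intro h
      exact ⟨fun i => (h i).1, funext fun i => (h i).2⟩
  rw [hset]
  split_ifs with hB
  · rw [Finset.prod_univ_sum]
    refine sum_congr rfl fun s hs => ?_
    have : (fun i => (s i : ZMod W)) = a := funext fun i => (mem_filter.1 (Fintype.mem_piFinset.1 hs i)).2
    rw [this, if_pos hB]
  · refine sum_eq_zero fun s hs => ?_
    have : (fun i => (s i : ZMod W)) = a := funext fun i => (mem_filter.1 (Fintype.mem_piFinset.1 hs i)).2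
    rw [this, if_neg hB]

/-- the quadratic character is `1` on half of the units -/
lemma half (r : ℕ) [NeZero r] (χ : DirichletCharacter ℂ r) (h2 : χ ^ 2 = 1) (h1 : χ ≠ 1) (t : ℝ) [DecidablePred (fun u : ZMod r => IsUnit u)]
    [DecidablePred (fun u : ZMod r => χ u = 1)] :
    ∑ u : ZMod r, (if IsUnit u then (if χ u = 1 then t else 1) else 0) =
      ((1 + t) / 2) * ∑ u : ZMod r, (if IsUnit u then (1 : ℝ) else 0) := by
  have hs : ∑ u : ZMod r, χ u = 0 := MulChar.sum_eq_zero_of_ne_one h1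
  have hval : ∀ u : ZMod r, IsUnit u → χ u = 1 ∨ χ u = -1 := by
    intro u hu
    have : (χ u) ^ 2 = 1 := by
      have := congrArg (fun ψ : DirichletCharacter ℂ r => ψ u) h2
      simp only [MulChar.pow_apply_coe, MulChar.one_apply hu] at this
      rw [← MulChar.pow_apply' χ (by norm_num)]
      exact this
    have h3 : (χ u - 1) * (χ u + 1) = 0 := by linear_combination this
    rcases mul_eq_zero.1 h3 with h | h
    · exact Or.inl (sub_eq_zero.1 h)
    · exact Or.inr (eq_neg_of_add_eq_zero_left h)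
  have key : ∀ u : ZMod r, (((if IsUnit u then (if χ u = 1 then t else 1) else 0 : ℝ) : ℂ)) =
      ((1 + t) / 2) * ((if IsUnit u then (1 : ℝ) else 0 : ℝ) : ℂ) - ((1 - t) / 2) * χ u := by
    intro u
    by_cases hu : IsUnit u
    · rcases hval u hu with h | h
      · rw [if_pos hu, if_pos hu, if_pos h, h]
        push_cast; ring
      · rw [if_pos hu, if_pos hu, if_neg (by rw [h]; norm_num), h]
        push_cast; ring
    · rw [if_neg hu, if_neg hu, MulChar.map_nonunit χ hu]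
      simp
  have : ((∑ u : ZMod r, (if IsUnit u then (if χ u = 1 then t else 1) else 0) : ℝ) : ℂ) =
      ((((1 + t) / 2) * ∑ u : ZMod r, (if IsUnit u then (1 : ℝ) else 0) : ℝ) : ℂ) := by
    push_cast
    have e : ∑ u : ZMod r, (((if IsUnit u then (if χ u = 1 then t else 1) else 0 : ℝ) : ℂ)) =
        ∑ u : ZMod r, (((1 + t) / 2) * ((if IsUnit u then (1 : ℝ) else 0 : ℝ) : ℂ) - ((1 - t) / 2) * χ u) := sum_congr rfl fun u _ => key u
    rw [sum_sub_distrib, ← mul_sum, ← mul_sum, hs, mul_zero, sub_zero] at e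
    push_cast at e
    exact e
  exact_mod_cast this

lemma exp_half : (1 + Real.exp (-1)) / 2 ≤ Real.exp (-(3 / 8 : ℝ)) := by
  have h := Real.cosh_le_exp_half_sq (1 / 2)
  have e : (1 + Real.exp (-1)) / 2 = Real.exp (-(1 / 2)) * Real.cosh (1 / 2) := by
    rw [Real.cosh_eq, mul_div_assoc', mul_add, ← Real.exp_add, ← Real.exp_add]
    norm_num
  rw [e]
  calc Real.exp (-(1 / 2)) * Real.cosh (1 / 2) ≤ Real.exp (-(1 / 2)) * Real.exp ((1 / 2) ^ 2 / 2) :=
        mul_le_mul_of_nonneg_left h (Real.exp_pos _).le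
    _ = Real.exp (-(3 / 8 : ℝ)) := by rw [← Real.exp_add]; norm_num

/-- the part of `PW K` prime to `r` -/
noncomputable def Wp (K r : ℕ) : ℕ := ∏ p ∈ (Icc 1 K).filter (fun p => p.Prime ∧ ¬ p ∣ r), p

lemma Wp_pos (K r : ℕ) : 0 < Wp K r := prod_pos fun p hp => (mem_filter.1 hp).2.1.pos

lemma Wp_dvd (K r : ℕ) : Wp K r ∣ PW K := by
  unfold Wp PW
  exact prod_dvd_prod_of_subset _ _ _ (fun p hp => by
    rw [mem_filter] at hp ⊢
    exact ⟨hp.1, hp.2.1⟩)

lemma Wp_coprime (K r : ℕ) : (Wp K r).Coprime r := by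
  unfold Wp
  refine Nat.Coprime.prod_left fun p hp => ?_
  exact (Nat.Prime.coprime_iff_not_dvd (mem_filter.1 hp).2.1).2 (mem_filter.1 hp).2.2

/-- admissibility at the primes `p ≤ K`, `p ∤ r`, as a condition on classes -/
def Bz (K r : ℕ) (a : Fin K → ZMod (Wp K r)) : Prop := ∀ p : ℕ, p.Prime → p ≤ K → ¬ p ∣ r → nu (fun i => (a i).val) p < p

lemma Bz_iff (K r : ℕ) (s : Fin K → ℕ) :
    Bz K r (fun i => (s i : ZMod (Wp K r))) ↔ ∀ p : ℕ, p.Prime → p ≤ K → ¬ p ∣ r → nu s p < p := by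
  unfold Bz
  refine forall_congr' fun p => forall_congr' fun hp => forall_congr' fun hK => forall_congr' fun hr => ?_
  have hd : p ∣ Wp K r := by
    unfold Wp
    exact dvd_prod_of_mem _ (mem_filter.2 ⟨mem_Icc.2 ⟨hp.one_le, hK⟩, hp, hr⟩)
  have : nu (fun i => ((s i : ZMod (Wp K r))).val) p = nu s p := by
    unfold nu
    congr 1
    refine image_congr fun i _ => ?_
    show ((s i : ZMod (Wp K r))).val % p = s i % p
    rw [ZMod.val_natCast, Nat.mod_mod_of_dvd _ hd]
  rw [this]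

lemma adm_iff (K r n : ℕ) (s : Fin K → ℕ) (hs : ∀ i, (n + s i).Coprime r) :
    Adm s ↔ Bz K r (fun i => (s i : ZMod (Wp K r))) := by
  rw [Bz_iff]
  constructor
  · intro h p hp _ _
    exact h p hp
  · intro h p hp
    by_cases hK : p ≤ K
    · by_cases hr : p ∣ r
      · -- the class of `-n` is missed
        have hpos := hp.pos
        have hsub : (univ.image fun i => s i % p) ⊆ (range p).erase ((p - n % p) % p) := by
          intro x hx
          obtain ⟨i, _, rfl⟩ := mem_image.1 hx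
          rw [mem_erase, mem_range]
          refine ⟨?_, Nat.mod_lt _ hpos⟩
          intro he
          have h1 : p ∣ n + s i := by
            have h2 : (n + s i) % p = 0 := by
              have h3 : (n % p + (p - n % p)) = p := by
                have := Nat.mod_lt n hpos
                omega
              rw [Nat.add_mod, he, Nat.add_mod_mod, h3, Nat.mod_self]
            exact Nat.dvd_of_mod_eq_zero h2
          have h4 := Nat.dvd_gcd h1 hr
          rw [hs i] at h4
          exact hp.one_lt.ne' (Nat.dvd_one.1 h4)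
        unfold nu
        calc (univ.image fun i => s i % p).card ≤ ((range p).erase ((p - n % p) % p)).card := card_le_card hsub
          _ = p - 1 := by rw [card_erase_of_mem (mem_range.2 (Nat.mod_lt _ hpos)), card_range]
          _ < p := by omega
      · exact h p hp hK hr
    · unfold nu
      calc (univ.image fun i => s i % p).card ≤ (univ : Finset (Fin K)).card := card_image_le
        _ = K := by simp
        _ < p := by omega

open Classical in
theorem _root_.Pool.Agent.Q145.SZ.t_COIN : S_COIN := by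
  intro r _ χ h2 h1 X K n hX
  set W := Wp K r with hWdef
  have hW : 0 < W := Wp_pos K r
  haveI : NeZero W := ⟨hW.ne'⟩
  have hr : 0 < r := Nat.pos_of_ne_zero (NeZero.ne r)
  have hc : W.Coprime r := Wp_coprime K r
  set y : ℝ := (X : ℝ) / (W * r : ℕ) with hy
  have hM : 0 < W * r := Nat.mul_pos hW hr
  have hMr : (0 : ℝ) < ((W * r : ℕ) : ℝ) := by exact_mod_cast hM
  have hy16 : 16 * ((K : ℝ) + 1) ≤ y := by
    rw [hy, le_div_iff₀ hMr]
    have h3 : W * r ≤ PW K * r := Nat.mul_le_mul_right r (Nat.le_of_dvd (Nat.pos_of_ne_zero (NeZero.ne (PW K))) (Wp_dvd K r))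
    have h4 : 16 * (K + 1) * (W * r) ≤ X := le_trans (Nat.mul_le_mul_left _ h3) hX
    exact_mod_cast h4
  have hK0 : (0 : ℝ) ≤ K := Nat.cast_nonneg K
  have hy1 : 0 < y - 1 := by linarith
  -- the two weights
  set t : ℝ := Real.exp (-1) with ht
  have htpos : 0 < t := Real.exp_pos _
  let G₁ : ZMod r → ℝ := fun u => if IsUnit u then (if χ u = 1 then t else 1) else 0
  let G₂ : ZMod r → ℝ := fun u => if IsUnit u then 1 else 0
  have hG₁ : ∀ u, 0 ≤ G₁ u := by
    intro u; simp only [G₁]; split_ifs <;> positivity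
  have hG₂ : ∀ u, 0 ≤ G₂ u := by
    intro u; simp only [G₂]; split_ifs <;> norm_num
  have hhalf : ∑ u, G₁ u = ((1 + t) / 2) * ∑ u, G₂ u := half r χ h2 h1 t
  set ρ : ℝ := Real.exp (-(3 / 8 : ℝ)) * ((y + 1) / (y - 1)) with hρ
  have hρ0 : 0 ≤ ρ := mul_nonneg (Real.exp_pos _).le (div_nonneg (by linarith) hy1.le)
  have hT : ∀ a : ZMod W, ∑ s ∈ (Icc 1 X).filter (fun s : ℕ => (s : ZMod W) = a), G₁ ((n + s : ℕ) : ZMod r) ≤
      ρ * ∑ s ∈ (Icc 1 X).filter (fun s : ℕ => (s : ZMod W) = a), G₂ ((n + s : ℕ) : ZMod r) := by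
    intro a
    have e1 := (sum_class X W r hW hr hc n a G₁ hG₁).2
    have e2 := (sum_class X W r hW hr hc n a G₂ hG₂).1
    rw [← hy] at e1 e2
    have hS : 0 ≤ ∑ u, G₂ u := sum_nonneg fun u _ => hG₂ u
    calc ∑ s ∈ (Icc 1 X).filter (fun s : ℕ => (s : ZMod W) = a), G₁ ((n + s : ℕ) : ZMod r) ≤ (y + 1) * ∑ u, G₁ u := e1
      _ = ((1 + t) / 2) * ((y + 1) * ∑ u, G₂ u) := by rw [hhalf]; ring
      _ ≤ Real.exp (-(3 / 8 : ℝ)) * ((y + 1) * ∑ u, G₂ u) :=
          mul_le_mul_of_nonneg_right exp_half (mul_nonneg (by linarith) hS)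
      _ = ρ * ((y - 1) * ∑ u, G₂ u) := by rw [hρ]; field_simp
      _ ≤ _ := mul_le_mul_of_nonneg_left e2 hρ0
  -- LHS
  have hA : (((AT X K).filter fun s => (∀ i, (n + s i).Coprime r) ∧ 4 * (univ.filter fun i => χ ((n + s i : ℕ) : ZMod r) = 1).card < K).card : ℝ) ≤
      Real.exp ((K : ℝ) / 4) * ∑ s ∈ Fintype.piFinset (fun _ : Fin K => Icc 1 X),
        (if Bz K r (fun i => (s i : ZMod W)) then ∏ i, G₁ ((n + s i : ℕ) : ZMod r) else 0) := by
    rw [card_eq_sum_ones, Nat.cast_sum, mul_sum]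
    unfold AT
    rw [filter_filter]
    calc ∑ s ∈ (Fintype.piFinset (fun _ : Fin K => Icc 1 X)).filter
          (fun s => Adm s ∧ ((∀ i, (n + s i).Coprime r) ∧ 4 * (univ.filter fun i => χ ((n + s i : ℕ) : ZMod r) = 1).card < K)), ((1 : ℕ) : ℝ)
        ≤ ∑ s ∈ (Fintype.piFinset (fun _ : Fin K => Icc 1 X)).filter
          (fun s => Adm s ∧ ((∀ i, (n + s i).Coprime r) ∧ 4 * (univ.filter fun i => χ ((n + s i : ℕ) : ZMod r) = 1).card < K)),
            Real.exp ((K : ℝ) / 4) * (if Bz K r (fun i => (s i : ZMod W)) then ∏ i, G₁ ((n + s i : ℕ) : ZMod r) else 0) := by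
          refine sum_le_sum fun s hs => ?_
          obtain ⟨_, hadm, hcop, hfew⟩ := mem_filter.1 hs
          rw [if_pos ((adm_iff K r n s hcop).1 hadm)]
          have hprod : ∏ i, G₁ ((n + s i : ℕ) : ZMod r) =
              Real.exp (-((univ.filter fun i => χ ((n + s i : ℕ) : ZMod r) = 1).card : ℝ)) := by
            have : ∀ i, G₁ ((n + s i : ℕ) : ZMod r) = if χ ((n + s i : ℕ) : ZMod r) = 1 then t else 1 := by
              intro i
              simp only [G₁]
              rw [if_pos ((ZMod.isUnit_iff_coprime _ _).2 (hcop i))]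
            rw [prod_congr rfl fun i _ => this i, prod_ite, prod_const, prod_const_one, mul_one, ht, ← Real.exp_nat_mul]
            congr 1; ring
          rw [hprod, ← Real.exp_add, Nat.cast_one]
          apply Real.one_le_exp
          have : (4 : ℝ) * ((univ.filter fun i => χ ((n + s i : ℕ) : ZMod r) = 1).card : ℝ) ≤ K := by exact_mod_cast hfew.le
          linarith
      _ ≤ _ := by
          refine sum_le_sum_of_subset_of_nonneg (filter_subset _ _) fun s _ _ => ?_
          refine mul_nonneg (Real.exp_pos _).le ?_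
          split_ifs
          · exact prod_nonneg fun i _ => hG₁ _
          · exact le_rfl
  -- RHS
  have hB : ∑ s ∈ Fintype.piFinset (fun _ : Fin K => Icc 1 X),
        (if Bz K r (fun i => (s i : ZMod W)) then ∏ i, G₂ ((n + s i : ℕ) : ZMod r) else 0) ≤ ((AT X K).card : ℝ) := by
    rw [card_eq_sum_ones, Nat.cast_sum]
    unfold AT
    rw [sum_filter]
    refine sum_le_sum fun s _ => ?_
    by_cases hcop : ∀ i, (n + s i).Coprime r
    · by_cases hb : Bz K r (fun i => (s i : ZMod W))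
      · rw [if_pos hb, if_pos ((adm_iff K r n s hcop).2 hb)]
        have : ∀ i, G₂ ((n + s i : ℕ) : ZMod r) = 1 := by
          intro i
          simp only [G₂]
          rw [if_pos ((ZMod.isUnit_iff_coprime _ _).2 (hcop i))]
        rw [prod_congr rfl fun i _ => this i, prod_const_one, Nat.cast_one]
      · rw [if_neg hb]
        split_ifs <;> norm_num
    · have h0 : (if Bz K r (fun i => (s i : ZMod W)) then ∏ i, G₂ ((n + s i : ℕ) : ZMod r) else 0) = 0 := by
        push Not at hcop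
        obtain ⟨i, hi⟩ := hcop
        have : ∏ i, G₂ ((n + s i : ℕ) : ZMod r) = 0 := by
          refine prod_eq_zero (mem_univ i) ?_
          simp only [G₂]
          rw [if_neg (fun h => hi ((ZMod.isUnit_iff_coprime _ _).1 h))]
        rw [this]; simp
      rw [h0]
      split_ifs <;> norm_num
  have hC : ∑ s ∈ Fintype.piFinset (fun _ : Fin K => Icc 1 X),
        (if Bz K r (fun i => (s i : ZMod W)) then ∏ i, G₁ ((n + s i : ℕ) : ZMod r) else 0) ≤
      ρ ^ K * ∑ s ∈ Fintype.piFinset (fun _ : Fin K => Icc 1 X),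
        (if Bz K r (fun i => (s i : ZMod W)) then ∏ i, G₂ ((n + s i : ℕ) : ZMod r) else 0) := by
    rw [fiber X K W (Bz K r) (fun u => G₁ ((n + u : ℕ) : ZMod r)), fiber X K W (Bz K r) (fun u => G₂ ((n + u : ℕ) : ZMod r)), mul_sum]
    refine sum_le_sum fun a _ => ?_
    split_ifs
    · calc ∏ i, ∑ s ∈ (Icc 1 X).filter (fun s : ℕ => (s : ZMod W) = a i), G₁ ((n + s : ℕ) : ZMod r)
          ≤ ∏ i, (ρ * ∑ s ∈ (Icc 1 X).filter (fun s : ℕ => (s : ZMod W) = a i), G₂ ((n + s : ℕ) : ZMod r)) :=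
            prod_le_prod (fun i _ => sum_nonneg fun s _ => hG₁ _) fun i _ => hT (a i)
        _ = _ := by rw [prod_mul_distrib, prod_const, card_univ, Fintype.card_fin]
    · simp
  have hρK : Real.exp ((K : ℝ) / 4) * ρ ^ K ≤ 2 * Real.exp (-((K : ℝ) / 8)) := by
    rw [hρ, mul_pow, ← Real.exp_nat_mul, ← mul_assoc, ← Real.exp_add]
    have e1 : (K : ℝ) / 4 + (K : ℝ) * (-(3 / 8 : ℝ)) = -((K : ℝ) / 8) := by ring
    rw [e1, mul_comm]
    refine mul_le_mul_of_nonneg_right ?_ (Real.exp_pos _).le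
    have e2 : (y + 1) / (y - 1) ≤ Real.exp (2 / (y - 1)) := by
      have := Real.add_one_le_exp (2 / (y - 1))
      have e3 : (y + 1) / (y - 1) = 2 / (y - 1) + 1 := by field_simp; ring
      rw [e3]; exact this
    calc ((y + 1) / (y - 1)) ^ K ≤ (Real.exp (2 / (y - 1))) ^ K := pow_le_pow_left₀ (div_nonneg (by linarith) hy1.le) e2 K
      _ = Real.exp (K * (2 / (y - 1))) := by rw [← Real.exp_nat_mul]
      _ ≤ Real.exp (1 / 2) := by
          refine Real.exp_le_exp.2 ?_
          rw [mul_div_assoc', div_le_div_iff₀ hy1 (by norm_num)]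
          nlinarith
      _ ≤ 2 := by
          have h3 : Real.exp (1 / 2) ^ 2 ≤ 4 := by
            rw [← Real.exp_nat_mul]
            have := Real.exp_one_lt_d9
            norm_num
            linarith
          nlinarith [Real.exp_pos (1 / 2)]
  calc _ ≤ _ := hA
    _ ≤ Real.exp ((K : ℝ) / 4) * (ρ ^ K * ((AT X K).card : ℝ)) :=
        mul_le_mul_of_nonneg_left (hC.trans (mul_le_mul_of_nonneg_left hB (pow_nonneg hρ0 K))) (Real.exp_pos _).le
    _ = (Real.exp ((K : ℝ) / 4) * ρ ^ K) * ((AT X K).card : ℝ) := by ring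
    _ ≤ _ := mul_le_mul_of_nonneg_right hρK (Nat.cast_nonneg _)

end Pool.Agent.Q247.SZ.Coin
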