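import Pool.Agent.Q145.SZ.Stm3
import Pool.Agent.Q247.SZ.Coin
import Pool.Agent.Erdos456.Mertens

/-!
# Project SZ, jobs FM and PADM (helper247)
-/

set_option autoImplicit false

namespace Pool.Agent.Q247.SZ.Fm

open Finset Filter
open Pool.Agent.Q145.SZ

/-- `π(3X) ≤ 5·3·X / log X` for large `X` -/
lemma pi_bd : ∃ X₀ : ℕ, 2 ≤ X₀ ∧ ∀ X : ℕ, X₀ ≤ X → (Nat.primeCounting (3 * X) : ℝ) ≤ 9 * X / Real.log X := by
  have h := Chebyshev.eventually_primeCounting_le (ε := 1) one_pos
  obtain ⟨x₀, hx₀⟩ := eventually_atTop.1 h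
  refine ⟨max 2 ⌈x₀⌉₊, le_max_left _ _, fun X hX => ?_⟩
  have h2 : 2 ≤ X := le_trans (le_max_left _ _) hX
  have h2r : (2 : ℝ) ≤ X := by exact_mod_cast h2
  have h3 : x₀ ≤ ((3 * X : ℕ) : ℝ) := by
    have h4 : (⌈x₀⌉₊ : ℝ) ≤ X := by exact_mod_cast le_trans (le_max_right _ _) hX
    have h5 := Nat.le_ceil x₀
    push_cast
    linarith
  have h6 := hx₀ _ h3
  rw [Nat.floor_natCast] at h6
  have hlog : 0 < Real.log X := Real.log_pos (by linarith)
  have hlog3 : Real.log X ≤ Real.log ((3 * X : ℕ) : ℝ) := Real.log_le_log (by linarith) (by push_cast; linarith)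
  have hl4 : Real.log 4 ≤ 2 := by
    have : Real.log 4 = 2 * Real.log 2 := by
      rw [show (4 : ℝ) = 2 ^ 2 by norm_num, Real.log_pow]; norm_num
    rw [this]
    have := Real.log_two_lt_d9
    linarith
  calc (Nat.primeCounting (3 * X) : ℝ) ≤ (Real.log 4 + 1) * ((3 * X : ℕ) : ℝ) / Real.log ((3 * X : ℕ) : ℝ) := h6
    _ ≤ (2 + 1) * ((3 * X : ℕ) : ℝ) / Real.log X := by
        apply div_le_div₀ (by positivity) _ hlog hlog3
        exact mul_le_mul_of_nonneg_right (by linarith) (Nat.cast_nonneg _)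
    _ = 9 * X / Real.log X := by push_cast; ring

open Classical in
theorem _root_.Pool.Agent.Q145.SZ.t_FM : S_FM := by
  obtain ⟨X₀, hX₀2, hX₀⟩ := pi_bd
  refine ⟨10, X₀, by norm_num, fun X K ε P hX hε hε1 hP => ?_⟩
  have hX2 : (2 : ℝ) ≤ X := by exact_mod_cast hX₀2.trans hX
  have hlog : 0 < Real.log X := Real.log_pos (by linarith)
  -- the weight
  let g : ℕ → ℝ := fun u => if u.Prime then (if u ∈ P then ε⁻¹ else 1) else 0
  have hε' : 1 ≤ ε⁻¹ := (one_le_inv₀ hε).2 hε1
  have hg : ∀ u, 0 ≤ g u := by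
    intro u; simp only [g]; split_ifs <;> positivity
  set θ : ℝ := ε ^ (1 / 4 : ℝ) with hθ
  have hθ0 : 0 < θ := Real.rpow_pos_of_pos hε _
  have hθ4 : θ ^ 4 = ε := by
    rw [hθ, ← Real.rpow_natCast, ← Real.rpow_mul hε.le]; norm_num
  have hθ1 : θ ≤ 1 := Real.rpow_le_one hε.le hε1 (by norm_num)
  -- pointwise bound of the indicator
  have hpt : ∀ n : ℕ, ∀ s : Fin K → ℕ, ((∀ i, (n + s i).Prime) ∧ K ≤ 4 * (univ.filter fun i => n + s i ∈ P).card) →
      1 ≤ θ ^ K * ∏ i, g (n + s i) := by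
    rintro n s ⟨h1, h2⟩
    have hprod : ∏ i, g (n + s i) = (ε⁻¹) ^ (univ.filter fun i => n + s i ∈ P).card := by
      have : ∀ i, g (n + s i) = if n + s i ∈ P then ε⁻¹ else 1 := by
        intro i; simp only [g]; rw [if_pos (h1 i)]
      rw [prod_congr rfl fun i _ => this i, prod_ite, prod_const, prod_const_one, mul_one]
    rw [hprod]
    set m := (univ.filter fun i => n + s i ∈ P).card with hm
    have e1 : θ ^ (4 * m) ≤ θ ^ K := pow_le_pow_of_le_one hθ0.le hθ1 h2
    have e2 : θ ^ (4 * m) * (ε⁻¹) ^ m = 1 := by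
      rw [pow_mul, hθ4, ← mul_pow, mul_inv_cancel₀ hε.ne', one_pow]
    calc (1 : ℝ) = θ ^ (4 * m) * (ε⁻¹) ^ m := e2.symm
      _ ≤ θ ^ K * (ε⁻¹) ^ m := mul_le_mul_of_nonneg_right e1 (by positivity)
  -- the sum over `s` for fixed `n`
  have hn : ∀ n ∈ Ioc X (2 * X), ∑ s ∈ Icc 1 X, g (n + s) ≤ 10 * X / Real.log X := by
    intro n hn
    rw [mem_Ioc] at hn
    have hsplit : ∀ u, g u ≤ (if u.Prime then 1 else 0) + (if u ∈ P then ε⁻¹ else 0) := by
      intro u
      simp only [g]
      have : 0 ≤ ε⁻¹ := by positivity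
      split_ifs <;> linarith
    have e1 : ∑ s ∈ Icc 1 X, (if (n + s).Prime then (1 : ℝ) else 0) ≤ Nat.primeCounting (3 * X) := by
      rw [← sum_filter, sum_const, nsmul_eq_mul, mul_one]
      have : ((Icc 1 X).filter fun s => (n + s).Prime).card ≤ ((range (3 * X + 1)).filter Nat.Prime).card := by
        refine card_le_card_of_injOn (fun s => n + s) ?_ (fun a _ b _ h => by simpa using h)
        intro s hs
        rw [mem_coe, mem_filter, mem_Icc] at hs
        rw [mem_coe, mem_filter, mem_range]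
        exact ⟨by show n + s < 3 * X + 1; omega, hs.2⟩
      rw [Nat.primeCounting, Nat.primeCounting', Nat.count_eq_card_filter_range]
      exact_mod_cast this
    have e2 : ∑ s ∈ Icc 1 X, (if n + s ∈ P then ε⁻¹ else 0) ≤ P.card * ε⁻¹ := by
      rw [← sum_filter, sum_const, nsmul_eq_mul]
      refine mul_le_mul_of_nonneg_right ?_ (by positivity)
      have : ((Icc 1 X).filter fun s => n + s ∈ P).card ≤ P.card := by
        refine card_le_card_of_injOn (fun s => n + s) ?_ (fun a _ b _ h => by simpa using h)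
        intro s hs
        rw [mem_coe, mem_filter] at hs
        exact hs.2
      exact_mod_cast this
    have e3 : (P.card : ℝ) * ε⁻¹ ≤ X / Real.log X := by
      calc (P.card : ℝ) * ε⁻¹ ≤ (ε * X / Real.log X) * ε⁻¹ := mul_le_mul_of_nonneg_right hP (by positivity)
        _ = X / Real.log X := by field_simp
    calc ∑ s ∈ Icc 1 X, g (n + s) ≤ ∑ s ∈ Icc 1 X, ((if (n + s).Prime then (1 : ℝ) else 0) + (if n + s ∈ P then ε⁻¹ else 0)) :=
          sum_le_sum fun s _ => hsplit _
      _ = ∑ s ∈ Icc 1 X, (if (n + s).Prime then (1 : ℝ) else 0) + ∑ s ∈ Icc 1 X, (if n + s ∈ P then ε⁻¹ else 0) := sum_add_distrib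
      _ ≤ 9 * X / Real.log X + X / Real.log X := add_le_add (e1.trans (hX₀ X hX)) (e2.trans e3)
      _ = 10 * X / Real.log X := by ring
  -- assembly
  calc ∑ s ∈ Fintype.piFinset (fun _ : Fin K => Icc 1 X),
        (((Ioc X (2 * X)).filter fun n => (∀ i, (n + s i).Prime) ∧ K ≤ 4 * (univ.filter fun i => n + s i ∈ P).card).card : ℝ)
      ≤ ∑ s ∈ Fintype.piFinset (fun _ : Fin K => Icc 1 X), ∑ n ∈ Ioc X (2 * X), θ ^ K * ∏ i, g (n + s i) := by
        refine sum_le_sum fun s _ => ?_
        rw [card_eq_sum_ones, Nat.cast_sum, sum_filter]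
        refine sum_le_sum fun n _ => ?_
        split_ifs with hc
        · rw [Nat.cast_one]
          convert hpt n s (by convert hc) using 1
        · exact mul_nonneg (by positivity) (prod_nonneg fun i _ => hg _)
    _ = ∑ n ∈ Ioc X (2 * X), θ ^ K * ∑ s ∈ Fintype.piFinset (fun _ : Fin K => Icc 1 X), ∏ i, g (n + s i) := by
        rw [sum_comm]
        simp_rw [mul_sum]
    _ = ∑ n ∈ Ioc X (2 * X), θ ^ K * (∑ s ∈ Icc 1 X, g (n + s)) ^ K := by
        refine sum_congr rfl fun n _ => ?_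
        rw [← Finset.prod_univ_sum (fun _ : Fin K => Icc 1 X) (fun _ s => g (n + s)), prod_const, card_univ, Fintype.card_fin]
    _ ≤ ∑ n ∈ Ioc X (2 * X), θ ^ K * (10 * X / Real.log X) ^ K := by
        refine sum_le_sum fun n hn' => ?_
        refine mul_le_mul_of_nonneg_left ?_ (by positivity)
        exact pow_le_pow_left₀ (sum_nonneg fun s _ => hg _) (hn n hn') K
    _ = X * (10 * ε ^ (1 / 4 : ℝ) * X / Real.log X) ^ K := by
        rw [sum_const, Nat.card_Ioc, nsmul_eq_mul, ← mul_pow, ← hθ]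
        have : ((2 * X - X : ℕ) : ℝ) = X := by
          rw [show 2 * X - X = X by omega]
        rw [this]
        congr 2
        ring

/-! ## PADM -/

lemma PW_primeFactors (K : ℕ) : (PW K).primeFactors = (Icc 1 K).filter Nat.Prime := by
  unfold PW
  exact Nat.primeFactors_prod fun p hp => (mem_filter.1 hp).2

/-- `φ(W) ≥ c W / log K` -/
lemma tot_bd : ∃ c : ℝ, 0 < c ∧ ∀ K : ℕ, 2 ≤ K → c / Real.log K * (PW K : ℝ) ≤ (Nat.totient (PW K) : ℝ) := by
  obtain ⟨C, hC⟩ := Pool.Agent.Erdos456.Mert.mertens_inv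
  set S : ℕ → ℝ := fun K => ∑ p ∈ (Icc 1 K).filter Nat.Prime, (1 : ℝ) / p with hS
  -- telescoping
  have htel : ∀ K : ℕ, 2 ≤ K → ∑ m ∈ Icc 2 K, (1 : ℝ) / (m * (m - 1)) = 1 - 1 / K := by
    intro K hK
    induction K, hK using Nat.le_induction with
    | base => norm_num
    | succ K hK ih =>
      rw [sum_Icc_succ_top (by omega), ih]
      have : (2 : ℝ) ≤ K := by exact_mod_cast hK
      push_cast
      have h1 : (K : ℝ) ≠ 0 := by positivity
      have h2 : (K : ℝ) + 1 ≠ 0 := by positivity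
      have h3 : (K : ℝ) + 1 - 1 = K := by ring
      rw [h3]
      field_simp
      ring
  have hfac : ∀ K : ℕ, 2 ≤ K → Real.exp (-(S K + 1)) * (PW K : ℝ) ≤ (Nat.totient (PW K) : ℝ) := by
    intro K hK
    have e1 : (Nat.totient (PW K) : ℝ) = ∏ p ∈ (Icc 1 K).filter Nat.Prime, ((p : ℝ) - 1) := by
      have h := Nat.totient_mul_prod_primeFactors (PW K)
      rw [PW_primeFactors] at h
      have hW : (∏ p ∈ (Icc 1 K).filter Nat.Prime, p) = PW K := rfl
      rw [hW, mul_comm] at h
      have h2 := Nat.eq_of_mul_eq_mul_left (Nat.pos_of_ne_zero (NeZero.ne (PW K))) h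
      rw [h2, Nat.cast_prod]
      refine prod_congr rfl fun p hp => ?_
      rw [Nat.cast_sub (mem_filter.1 hp).2.one_le, Nat.cast_one]
    have e2 : (PW K : ℝ) = ∏ p ∈ (Icc 1 K).filter Nat.Prime, (p : ℝ) := by
      unfold PW; rw [Nat.cast_prod]
    have e3 : (PW K : ℝ) ≤ Real.exp (∑ p ∈ (Icc 1 K).filter Nat.Prime, 1 / ((p : ℝ) - 1)) * (Nat.totient (PW K) : ℝ) := by
      rw [e1, e2, Real.exp_sum, ← prod_mul_distrib]
      refine prod_le_prod (fun p _ => Nat.cast_nonneg p) fun p hp => ?_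
      have hp2 : (2 : ℝ) ≤ p := by exact_mod_cast (mem_filter.1 hp).2.two_le
      have h4 := Real.add_one_le_exp (1 / ((p : ℝ) - 1))
      have h5 : (0 : ℝ) < (p : ℝ) - 1 := by linarith
      calc (p : ℝ) = (1 / ((p : ℝ) - 1) + 1) * ((p : ℝ) - 1) := by field_simp; ring
        _ ≤ _ := mul_le_mul_of_nonneg_right h4 h5.le
    have e4 : ∑ p ∈ (Icc 1 K).filter Nat.Prime, 1 / ((p : ℝ) - 1) ≤ S K + 1 := by
      have h6 : ∑ p ∈ (Icc 1 K).filter Nat.Prime, 1 / ((p : ℝ) - 1) =
          S K + ∑ p ∈ (Icc 1 K).filter Nat.Prime, 1 / ((p : ℝ) * (p - 1)) := by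
        rw [hS, ← sum_add_distrib]
        refine sum_congr rfl fun p hp => ?_
        have hp2 : (2 : ℝ) ≤ p := by exact_mod_cast (mem_filter.1 hp).2.two_le
        have h5 : (p : ℝ) - 1 ≠ 0 := by linarith
        have h7 : (p : ℝ) ≠ 0 := by linarith
        field_simp
        ring
      have h8 : ∑ p ∈ (Icc 1 K).filter Nat.Prime, 1 / ((p : ℝ) * (p - 1)) ≤ ∑ m ∈ Icc 2 K, (1 : ℝ) / (m * (m - 1)) := by
        refine sum_le_sum_of_subset_of_nonneg ?_ ?_
        · intro p hp
          rw [mem_filter, mem_Icc] at hp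
          exact mem_Icc.2 ⟨hp.2.two_le, hp.1.2⟩
        · intro m hm _
          have : (2 : ℝ) ≤ m := by exact_mod_cast (mem_Icc.1 hm).1
          have : (0 : ℝ) < (m : ℝ) - 1 := by linarith
          positivity
      have h9 := htel K hK
      have h10 : (0 : ℝ) ≤ 1 / (K : ℝ) := by positivity
      rw [h6]; linarith
    have e5 := e3.trans (mul_le_mul_of_nonneg_right (Real.exp_le_exp.2 e4) (Nat.cast_nonneg _))
    rw [Real.exp_neg, inv_mul_le_iff₀ (Real.exp_pos _)]
    exact e5
  have hC0 : 0 ≤ C := (abs_nonneg _).trans (hC 3 le_rfl)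
  refine ⟨min (Real.exp (-(C + 1))) (Real.exp (-(S 2 + 1)) * Real.log 2), ?_, ?_⟩
  · have := Real.log_two_gt_d9
    refine lt_min (Real.exp_pos _) (mul_pos (Real.exp_pos _) (by linarith))
  · intro K hK
    have hKr : (2 : ℝ) ≤ K := by exact_mod_cast hK
    have hlog : 0 < Real.log K := Real.log_pos (by linarith)
    refine le_trans ?_ (hfac K hK)
    refine mul_le_mul_of_nonneg_right ?_ (Nat.cast_nonneg _)
    rw [div_le_iff₀ hlog]
    rcases Nat.lt_or_ge K 3 with h3 | h3
    · have : K = 2 := by omega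
      subst this
      exact min_le_right _ _
    · refine (min_le_left _ _).trans ?_
      have h4 := (abs_le.1 (hC K h3)).2
      have h4' : S K ≤ Real.log (Real.log K) + C := by rw [hS]; linarith
      calc Real.exp (-(C + 1)) = Real.exp (-(Real.log (Real.log K) + C + 1)) * Real.log K := by
            nth_rewrite 2 [← Real.exp_log hlog]
            rw [← Real.exp_add]; congr 1; ring
        _ ≤ Real.exp (-(S K + 1)) * Real.log K :=
            mul_le_mul_of_nonneg_right (Real.exp_le_exp.2 (by linarith)) hlog.le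

theorem _root_.Pool.Agent.Q145.SZ.t_PADM : S_PADM := by
  classical
  obtain ⟨c, hc, hcK⟩ := tot_bd
  refine ⟨c / 2, by positivity, fun X K hK hX => ?_⟩
  set W := PW K with hWdef
  have hW : 0 < W := Nat.pos_of_ne_zero (NeZero.ne (PW K))
  have hWr : (0 : ℝ) < W := by exact_mod_cast hW
  have hXr : 2 * (W : ℝ) ≤ X := by exact_mod_cast hX
  have hKr : (2 : ℝ) ≤ K := by exact_mod_cast hK
  have hlog : 0 < Real.log K := Real.log_pos (by linarith)
  set T := (Icc 1 X).filter (fun s => s.Coprime W) with hT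
  -- number of elements of `T`
  have hTc : c / 2 / Real.log K * X ≤ (T.card : ℝ) := by
    haveI : NeZero W := ⟨hW.ne'⟩
    have h1 := (Pool.Agent.Q247.SZ.Coin.sum_class X 1 W one_pos hW (Nat.coprime_one_left W) 0 (0 : ZMod 1)
      (fun u => if IsUnit u then (1 : ℝ) else 0) (fun u => by split_ifs <;> norm_num)).1
    have h2 : ∑ u : ZMod W, (if IsUnit u then (1 : ℝ) else 0) = (Nat.totient W : ℝ) := by
      rw [← sum_filter, sum_const, nsmul_eq_mul, mul_one, ← ZMod.card_units_eq_totient, ← card_univ]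
      congr 1
      have : (univ.filter fun u : ZMod W => IsUnit u) = (univ : Finset (ZMod W)ˣ).image Units.val := by
        ext u
        simp only [mem_filter, mem_univ, true_and, mem_image]
        rfl
      rw [this, card_image_of_injective _ Units.val_injective]
    have h3 : ∑ s ∈ (Icc 1 X).filter (fun s : ℕ => (s : ZMod 1) = 0), (if IsUnit (((0 + s : ℕ) : ZMod W)) then (1 : ℝ) else 0) = (T.card : ℝ) := by
      rw [← sum_filter, sum_const, nsmul_eq_mul, mul_one, filter_filter, hT]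
      congr 2
      refine filter_congr fun s _ => ?_
      constructor
      · rintro ⟨_, h⟩
        rw [zero_add] at h
        exact (ZMod.isUnit_iff_coprime _ _).1 h
      · intro h
        refine ⟨Subsingleton.elim _ _, ?_⟩
        rw [zero_add]
        exact (ZMod.isUnit_iff_coprime _ _).2 h
    rw [h3, h2] at h1
    refine le_trans ?_ h1
    rw [one_mul]
    have h4 := hcK K hK
    have h5 : (X : ℝ) / (2 * W) ≤ (X : ℝ) / W - 1 := by
      have h6 : 1 ≤ (X : ℝ) / (2 * W) := by rw [le_div_iff₀ (by positivity)]; linarith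
      have h7 : (X : ℝ) / W = 2 * ((X : ℝ) / (2 * W)) := by field_simp
      linarith
    calc c / 2 / Real.log K * X = (X : ℝ) / (2 * W) * (c / Real.log K * W) := by field_simp
      _ ≤ (X : ℝ) / (2 * W) * (Nat.totient W : ℝ) := mul_le_mul_of_nonneg_left h4 (by positivity)
      _ ≤ ((X : ℝ) / W - 1) * (Nat.totient W : ℝ) := mul_le_mul_of_nonneg_right h5 (Nat.cast_nonneg _)
  -- all tuples of `T` are admissible
  have hsub : Fintype.piFinset (fun _ : Fin K => T) ⊆ AT X K := by
    intro s hs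
    rw [Fintype.mem_piFinset] at hs
    unfold AT
    rw [mem_filter, Fintype.mem_piFinset]
    refine ⟨fun i => (mem_filter.1 (hs i)).1, ?_⟩
    intro p hp
    by_cases hpK : p ≤ K
    · have hpW : p ∣ W := by
        rw [hWdef]; unfold PW
        exact dvd_prod_of_mem _ (mem_filter.2 ⟨mem_Icc.2 ⟨hp.one_le, hpK⟩, hp⟩)
      have hss : (univ.image fun i => s i % p) ⊆ (range p).erase 0 := by
        intro x hx
        obtain ⟨i, _, rfl⟩ := mem_image.1 hx
        rw [mem_erase, mem_range]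
        refine ⟨?_, Nat.mod_lt _ hp.pos⟩
        intro h0
        have h1 := Nat.dvd_gcd (Nat.dvd_of_mod_eq_zero h0) hpW
        have h2 : (s i).Coprime W := (mem_filter.1 (hs i)).2
        rw [h2] at h1
        exact hp.one_lt.ne' (Nat.dvd_one.1 h1)
      unfold nu
      calc (univ.image fun i => s i % p).card ≤ ((range p).erase 0).card := card_le_card hss
        _ = p - 1 := by rw [card_erase_of_mem (mem_range.2 hp.pos), card_range]
        _ < p := by have := hp.pos; omega
    · unfold nu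
      calc (univ.image fun i => s i % p).card ≤ (univ : Finset (Fin K)).card := card_image_le
        _ = K := by simp
        _ < p := by omega
  have hcard : ((Fintype.piFinset (fun _ : Fin K => T)).card : ℝ) = (T.card : ℝ) ^ K := by
    rw [Fintype.card_piFinset, prod_const, card_univ, Fintype.card_fin]; push_cast; rfl
  calc (c / 2 / Real.log K * X) ^ K ≤ (T.card : ℝ) ^ K := pow_le_pow_left₀ (by positivity) hTc K
    _ = ((Fintype.piFinset (fun _ : Fin K => T)).card : ℝ) := hcard.symm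
    _ ≤ ((AT X K).card : ℝ) := by exact_mod_cast card_le_card hsub

end Pool.Agent.Q247.SZ.Fm
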